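import Mathlib

namespace Pool.Agent.Results.MP_25d917_an.Bound

open Matrix
open scoped ComplexOrder MatrixOrder Matrix.Norms.L2Operator

/-- decay rate of a matrix: minus the largest real part of an eigenvalue -/
noncomputable def decay {n : ℕ} (F : Matrix (Fin n) (Fin n) ℂ) : ℝ :=
  -sSup (Complex.re '' spectrum ℂ F)

variable {n : ℕ}

theorem trmul {M N : Matrix (Fin n) (Fin n) ℂ} (hM : M.PosSemidef) (hN : N.PosSemidef) :
    0 ≤ (M * N).trace := by
  obtain ⟨R, rfl⟩ := CStarAlgebra.nonneg_iff_eq_star_mul_self.mp hM.nonneg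
  rw [mul_assoc, trace_mul_comm]
  exact (hN.mul_mul_conjTranspose_same R).trace_nonneg

theorem tr_bound (F M : Matrix (Fin n) (Fin n) ℂ) (t C : ℝ) (hC : 0 < C)
    (hM : M * (F - (Complex.I * t) • 1) = 1) (hF : ∀ z ∈ spectrum ℂ F, z.re < -C) :
    ‖M.trace‖ ≤ n / C := by
  have hroot : ∀ μ ∈ M.charpoly.roots, ‖μ‖ ≤ 1 / C := by
    intro μ hμ
    have h1 : μ ∈ spectrum ℂ M :=
      Matrix.mem_spectrum_iff_isRoot_charpoly.2 (Polynomial.isRoot_of_mem_roots hμ)
    by_cases h0 : μ = 0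
    · rw [h0, norm_zero]; positivity
    have h2 : μ⁻¹ + Complex.I * t ∈ spectrum ℂ F := by
      by_contra h
      rw [spectrum.notMem_iff] at h
      apply h1
      rw [spectrum.mem_resolventSet_iff]
      have hMu : IsUnit M := IsUnit.of_mul_eq_one _ hM
      have : algebraMap ℂ (Matrix (Fin n) (Fin n) ℂ) μ - M =
          algebraMap ℂ _ (-μ) * (M * (algebraMap ℂ _ (μ⁻¹ + Complex.I * t) - F)) := by
        have h3 : M * (algebraMap ℂ _ (μ⁻¹ + Complex.I * t) - F) = μ⁻¹ • M - 1 := by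
          rw [← hM, Algebra.algebraMap_eq_smul_one, add_smul]
          simp only [mul_sub, mul_add, mul_smul_comm, mul_one]
          abel
        rw [h3, ← Algebra.smul_def, smul_sub, smul_smul, neg_mul, mul_inv_cancel₀ h0,
          Algebra.algebraMap_eq_smul_one]
        simp only [neg_smul, one_smul]
        abel
      rw [this]
      exact ((IsUnit.mk0 _ (neg_ne_zero.2 h0)).map _).mul (hMu.mul h)
    have h3 := hF _ h2
    simp only [Complex.add_re, Complex.mul_re, Complex.I_re, Complex.I_im, Complex.ofReal_re,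
      Complex.ofReal_im, zero_mul, mul_zero, sub_zero, add_zero] at h3
    have h4 : C ≤ ‖μ⁻¹‖ := by
      have := Complex.abs_re_le_norm μ⁻¹
      have := neg_abs_le (μ⁻¹).re
      linarith
    rw [norm_inv] at h4
    rw [one_div]
    exact le_inv_of_le_inv₀ hC h4
  rw [Matrix.trace_eq_sum_roots_charpoly]
  have h1 : ‖M.charpoly.roots.sum‖ ≤ (M.charpoly.roots.map fun μ => ‖μ‖).sum := by
    simpa using norm_multiset_sum_le M.charpoly.roots
  refine h1.trans ?_
  have h2 := Multiset.sum_le_card_nsmul (M.charpoly.roots.map fun μ => ‖μ‖) (1 / C) (by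
    intro x hx
    obtain ⟨μ, hμ, rfl⟩ := Multiset.mem_map.1 hx
    exact hroot μ hμ)
  refine h2.trans ?_
  rw [Multiset.card_map, nsmul_eq_mul, mul_one_div]
  gcongr
  have := Polynomial.card_roots' M.charpoly
  rwa [Matrix.charpoly_natDegree_eq_dim, Fintype.card_fin] at this

theorem proj {m : ℕ} (hm : m < n) (B : Matrix (Fin n) (Fin m) ℂ) :
    ∃ W : Matrix (Fin n) (Fin n) ℂ, W.PosSemidef ∧ (1 - W).PosSemidef ∧ W.trace = 1 ∧
      B * Bᴴ * W = 0 := by
  have hk : LinearMap.ker (Bᴴ).mulVecLin ≠ ⊥ :=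
    LinearMap.ker_ne_bot_of_finrank_lt (by simpa using hm)
  obtain ⟨v, hv, hv0⟩ := Submodule.exists_mem_ne_zero_of_ne_bot hk
  have hv' : Bᴴ *ᵥ v = 0 := hv
  have hτ : 0 < star v ⬝ᵥ v := dotProduct_star_self_pos_iff.2 hv0
  set τ := star v ⬝ᵥ v with hτd
  have hτ0 : τ ≠ 0 := hτ.ne'
  have hW : (τ⁻¹ • vecMulVec v (star v)).PosSemidef :=
    (posSemidef_vecMulVec_self_star v).smul (inv_pos.2 hτ).le
  have hsq : (τ⁻¹ • vecMulVec v (star v)) * (τ⁻¹ • vecMulVec v (star v)) =
      τ⁻¹ • vecMulVec v (star v) := by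
    rw [smul_mul_smul_comm, vecMulVec_mul_vecMulVec, ← hτd, vecMulVec_smul, smul_smul]
    congr 1
    field_simp
  refine ⟨_, hW, ?_, ?_, ?_⟩
  · have := posSemidef_conjTranspose_mul_self (1 - τ⁻¹ • vecMulVec v (star v))
    rw [conjTranspose_sub, conjTranspose_one, hW.1.eq, sub_mul, mul_sub, mul_sub, hsq] at this
    simpa using this
  · rw [trace_smul, trace_vecMulVec, dotProduct_comm, ← hτd, smul_eq_mul, inv_mul_cancel₀ hτ0]
  · rw [Matrix.mul_smul, Matrix.mul_assoc, mul_vecMulVec, hv']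
    simp

theorem result (n : ℕ) (A : Matrix (Fin n) (Fin n) ℂ) (hA : Aᴴ = -A) :
    ∃ C : ℝ, ∀ m : ℕ, m < n → ∀ (B : Matrix (Fin n) (Fin m) ℂ) (X : Matrix (Fin n) (Fin n) ℂ),
      X.PosDef → Aᴴ * X + X * A - X * B * Bᴴ * X + 1 = 0 → decay (A - B * Bᴴ * X) ≤ C := by
  set D : Matrix (Fin n) (Fin n) ℂ := (-Complex.I) • A with hD
  have hDs : IsSelfAdjoint D := by
    change Dᴴ = D
    rw [hD, conjTranspose_smul, hA]; simp
  have hAD : A = Complex.I • D := by
    rw [hD, smul_smul]; simp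
  set t : ℝ := ‖D‖ + 1 with ht
  set E : Matrix (Fin n) (Fin n) ℂ := (t : ℂ) • 1 - D with hE
  have hE1 : (E - 1).PosSemidef := by
    have h1 := hDs.le_algebraMap_norm_self
    rw [le_iff] at h1
    have : E - 1 = algebraMap ℝ _ ‖D‖ - D := by
      rw [hE, ht, Algebra.algebraMap_eq_smul_one]
      push_cast
      rw [add_smul, one_smul, Complex.coe_smul]
      abel
    rwa [this]
  have hEp : E.PosDef := by
    have := PosDef.one.add_posSemidef hE1
    simpa using this
  set c : ℝ := ‖E‖ ^ 2 + 1 with hc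
  have hc0 : 0 < c := by positivity
  have hE2 : ((c : ℂ) • 1 - E * E).PosSemidef := by
    have h1 := CStarAlgebra.star_mul_le_algebraMap_norm_sq (a := E)
    rw [le_iff] at h1
    have h2 : star E = E := hEp.1
    rw [h2] at h1
    have : (c : ℂ) • 1 - E * E = algebraMap ℝ _ (‖E‖ ^ 2) - E * E + 1 := by
      rw [hc, Algebra.algebraMap_eq_smul_one, Complex.ofReal_add, add_smul, Complex.coe_smul]
      simp only [Complex.ofReal_one, one_smul]
      abel
    rw [this]
    exact h1.add PosSemidef.one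
  refine ⟨n * c + 1, fun m hm B X hX hR => ?_⟩
  obtain ⟨W, hW, hW1, hWt, hPW⟩ := proj hm B
  set P := B * Bᴴ with hP
  have hPp : P.PosSemidef := posSemidef_self_mul_conjTranspose B
  have hR' : X * A - X * P * X = A * X - 1 := by
    rw [hA, Matrix.mul_assoc X B, ← hP, Matrix.neg_mul] at hR
    rw [← sub_eq_zero, ← hR]; abel
  set G := E * E + P with hG
  have hGp : G.PosDef := by
    have h1 : (Eᴴ * E).PosDef := by
      have := (PosDef.one (n := Fin n) (R := ℂ)).conjTranspose_mul_mul_same (B := E)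
        (Matrix.mulVec_injective_iff_isUnit.2 hEp.isUnit)
      simpa using this
    rw [hEp.1.eq] at h1
    exact h1.add_posSemidef hPp
  have hGi : G⁻¹ * G = 1 := nonsing_inv_mul _ ((isUnit_iff_isUnit_det _).1 hGp.isUnit)
  have hGi' : G * G⁻¹ = 1 := mul_nonsing_inv _ ((isUnit_iff_isUnit_det _).1 hGp.isUnit)
  have hXi : X⁻¹ * X = 1 := nonsing_inv_mul _ ((isUnit_iff_isUnit_det _).1 hX.isUnit)
  have hXi' : X * X⁻¹ = 1 := mul_nonsing_inv _ ((isUnit_iff_isUnit_det _).1 hX.isUnit)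
  set N : Matrix (Fin n) (Fin n) ℂ := (-Complex.I) • E with hN
  have hNA : N = A - (Complex.I * t) • 1 := by
    rw [hN, hE, hAD, smul_sub, smul_smul]
    simp only [neg_mul, neg_smul]
    abel
  have hNN : N * N = -(E * E) := by
    rw [hN, smul_mul_smul_comm]; simp
  set K := A - P * X - (Complex.I * t) • 1 with hK
  have hK1 : K = N - P * X := by rw [hK, hNA]; abel
  have hK2 : X * K = N * X - 1 := by
    rw [hK, hNA, mul_sub, mul_sub, ← Matrix.mul_assoc, hR', sub_mul, mul_smul_comm,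
      smul_mul_assoc, mul_one, one_mul]
    abel
  have hK3 : (N * X + 1) * K = -(G * X) := by
    rw [add_mul, mul_assoc, hK2, one_mul, hK1, mul_sub, ← mul_assoc, hNN, hG]
    noncomm_ring
  set M := -(X⁻¹ * G⁻¹ * (N * X + 1)) with hM
  have hMK : M * K = 1 := by
    rw [hM, neg_mul, mul_assoc, hK3, mul_neg, neg_neg, mul_assoc, ← mul_assoc G⁻¹, hGi, one_mul,
      hXi]
  have htr : M.trace = Complex.I * (G⁻¹ * E).trace - (X⁻¹ * G⁻¹).trace := by
    rw [hM, mul_add, mul_one, trace_neg, trace_add, ← mul_assoc, trace_mul_comm,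
      ← mul_assoc, ← mul_assoc, hXi', one_mul, hN, mul_smul_comm, trace_smul, smul_eq_mul]
    ring
  have h1 : 0 ≤ (X⁻¹ * G⁻¹).trace := trmul hX.inv.posSemidef hGp.inv.posSemidef
  have h2 : 0 ≤ (G⁻¹ * (E - W)).trace := by
    refine trmul hGp.inv.posSemidef ?_
    have := hE1.add hW1
    simpa using this
  have h3 : 0 ≤ (((c : ℂ) • 1 - E * E) * W).trace := trmul hE2 hW
  have h4 : 0 ≤ (((c : ℂ) • G⁻¹ - 1)ᴴ * G * ((c : ℂ) • G⁻¹ - 1) * W).trace :=
    trmul (hGp.posSemidef.conjTranspose_mul_mul_same _) hW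
  have h5 : ((c : ℂ) • G⁻¹ - 1)ᴴ * G * ((c : ℂ) • G⁻¹ - 1) * W =
      ((c : ℂ) * c) • (G⁻¹ * W) - (2 * (c : ℂ)) • W + E * E * W := by
    have : G * W = E * E * W := by rw [hG, add_mul, hPW, add_zero]
    rw [← this, conjTranspose_sub, conjTranspose_smul, hGp.inv.1.eq, conjTranspose_one]
    simp only [Complex.star_def, Complex.conj_ofReal, sub_mul, mul_sub, smul_mul_assoc,
      mul_smul_comm, hGi, hGi', one_mul, mul_one, smul_sub, smul_smul, two_mul, add_smul]
    abel
  rw [h5, trace_add, trace_sub, trace_smul, trace_smul, hWt] at h4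
  rw [sub_mul, trace_sub, smul_mul_assoc, one_mul, trace_smul, hWt] at h3
  rw [mul_sub, trace_sub] at h2
  have h6 : 1 / c ≤ (G⁻¹ * E).trace.re := by
    have a2 := (Complex.le_def.1 h2).1
    have a3 := (Complex.le_def.1 h3).1
    have a4 := (Complex.le_def.1 h4).1
    simp only [Complex.zero_re, Complex.sub_re, Complex.add_re, smul_eq_mul, mul_one,
      Complex.ofReal_re, Complex.mul_re, Complex.ofReal_im, mul_zero, sub_zero, zero_mul,
      Complex.mul_im, add_zero, Complex.re_ofNat, Complex.im_ofNat] at a2 a3 a4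
    rw [div_le_iff₀ hc0]
    nlinarith
  have h7 : 1 / c ≤ ‖M.trace‖ := by
    have a1 := (Complex.le_def.1 h1).2
    have : M.trace.im = (G⁻¹ * E).trace.re := by
      rw [htr]; simp [← a1]
    exact h6.trans (this ▸ (le_abs_self _).trans (Complex.abs_im_le_norm _))
  have hC : (0 : ℝ) < n * c + 1 := by positivity
  by_contra hlt
  have hbd : BddAbove (Complex.re '' spectrum ℂ (A - P * X)) :=
    ((Matrix.finite_spectrum _).image _).bddAbove
  have h8 := tr_bound (A - P * X) M t _ hC hMK (fun z hz => by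
    have := le_csSup hbd ⟨z, hz, rfl⟩
    unfold decay at hlt
    linarith [not_le.1 hlt])
  have h9 := h7.trans h8
  rw [div_le_div_iff₀ hc0 hC] at h9
  linarith

end Pool.Agent.Results.MP_25d917_an.Bound
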